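import Pool.Agent.Y671.LW.Law

/-!
# The Lang-Trotter conjecture for almost all members of every polynomial family of elliptic curves

`E_t : y² = x³ + A(t) x + B(t)`, where `A`, `B` are arbitrary polynomials in `n` variables with integral
coefficients (more generally `k` such families `A_i`, `B_i` with the same parameter `t`).  For every
`δ > 0` there are `c > 0` and `C` (depending only on `n`, `k`, `δ`) such that for all but at most
`N ^ (n - c)` of the parameters `t ∈ [-N, N]^n` the number of the primes `p` in `(u, v]`, `p ≡ r (mod m)`,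
with given Frobenius traces `a_p(E_t) = a` differs from its expected value `V`, the sum of the proportions
of the residue classes `t` modulo `p` with the trace `a`, by at most `(max 1 V) ^ (1 / 2) x ^ δ`,
simultaneously for all `x` between a power of `log N` and `N ^ c`, all `u ≤ v ≤ x`, `r < m ≤ x` and all
traces `a` (and for all windows of traces).

Nothing is used besides Mathlib in the statement.
-/

set_option autoImplicit false

namespace Pool.Agent.Results.MP_f1937f_nt.PolynomialFamilies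

open Finset MvPolynomial
open Pool.Agent.TH894.NE (box mem_box Pr)

/-- The number of the solutions of `y² = x³ + a x + b` modulo `p`. -/
def points (p : ℕ) (a b : ℤ) : ℕ :=
  ((range p ×ˢ range p).filter (fun xy : ℕ × ℕ =>
    (p : ℤ) ∣ (xy.2 : ℤ) ^ 2 - ((xy.1 : ℤ) ^ 3 + a * (xy.1 : ℤ) + b))).card

/-- The curve `y² = x³ + a x + b` has good reduction modulo `p` and its trace of Frobenius
`a_p = p + 1 - #E(F_p) = p - points p a b` satisfies `s ≤ a_p ≤ s'`. -/
def TraceIn (p : ℕ) (a b s s' : ℤ) : Prop :=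
  ¬ (p : ℤ) ∣ 2 * (4 * a ^ 3 + 27 * b ^ 2) ∧ s ≤ (p : ℤ) - points p a b ∧ (p : ℤ) - points p a b ≤ s'

/-- For the curves `E_i : y² = x³ + A_i(t) x + B_i(t)`, `i < k`: all have good reduction modulo `p` and
`s i ≤ a_p(E_i) ≤ s' i` for all `i`. -/
def Traces {n k : ℕ} (A B : Fin k → MvPolynomial (Fin n) ℤ) (s s' : Fin k → ℤ) (p : ℕ) (t : Fin n → ℤ) : Prop :=
  ∀ i, TraceIn p (eval t (A i)) (eval t (B i)) (s i) (s' i)

/-- The primes `p` with `u < p ≤ v` and `p ≡ r (mod m)`. -/
def primes (u v m r : ℕ) : Finset ℕ := (Ioc u v).filter (fun p => p.Prime ∧ p % m = r)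

open Classical in
/-- The number of the primes `p ∈ (u, v]`, `p ≡ r (mod m)`, at which the curves with the parameter `t` have
traces in the given windows. -/
noncomputable def count {n k : ℕ} (A B : Fin k → MvPolynomial (Fin n) ℤ) (s s' : Fin k → ℤ) (u v m r : ℕ)
    (t : Fin n → ℤ) : ℕ := ((primes u v m r).filter (fun p => Traces A B s s' p t)).card

open Classical in
/-- The expected number: the sum over these primes `p` of the proportion of the residue classes `w` modulo `p`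
of the parameter for which the traces are in the given windows. -/
noncomputable def expected {n k : ℕ} (A B : Fin k → MvPolynomial (Fin n) ℤ) (s s' : Fin k → ℤ) (u v m r : ℕ) : ℝ :=
  ∑ p ∈ primes u v m r,
    (((Fintype.piFinset (fun _ : Fin n => range p)).filter
      (fun w => Traces A B s s' p (fun i => (w i : ℤ)))).card : ℝ) / (p : ℝ) ^ n

/-- The property of the parameter `t` at the scale `x`. -/
def Good {n k : ℕ} (A B : Fin k → MvPolynomial (Fin n) ℤ) (δ : ℝ) (x : ℕ) (t : Fin n → ℤ) : Prop :=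
  ∀ (s s' : Fin k → ℤ) (u v m r : ℕ), u ≤ v → v ≤ x → r < m → m ≤ x →
    |(count A B s s' u v m r t : ℝ) - expected A B s s' u v m r| ≤
      Real.sqrt (max 1 (expected A B s s' u v m r)) * (x : ℝ) ^ δ

/-- The parameters `t` with `|t i| ≤ N` for all `i`. -/
noncomputable def params (n N : ℕ) : Finset (Fin n → ℤ) := Fintype.piFinset (fun _ => Icc (-(N : ℤ)) N)

lemma points_le (p : ℕ) (a b : ℤ) : points p a b ≤ p * p := by
  unfold points
  refine (card_filter_le _ _).trans ?_
  rw [card_product, card_range]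

lemma points_congr {p : ℕ} {a b a' b' : ℤ} (ha : (p : ℤ) ∣ a - a') (hb : (p : ℤ) ∣ b - b') :
    points p a b = points p a' b' := by
  unfold points
  congr 1
  apply filter_congr
  intro xy _
  have h : (p : ℤ) ∣ ((xy.2 : ℤ) ^ 2 - ((xy.1 : ℤ) ^ 3 + a * (xy.1 : ℤ) + b)) -
      ((xy.2 : ℤ) ^ 2 - ((xy.1 : ℤ) ^ 3 + a' * (xy.1 : ℤ) + b')) := by
    have e : ((xy.2 : ℤ) ^ 2 - ((xy.1 : ℤ) ^ 3 + a * (xy.1 : ℤ) + b)) -
      ((xy.2 : ℤ) ^ 2 - ((xy.1 : ℤ) ^ 3 + a' * (xy.1 : ℤ) + b')) = -((a - a') * (xy.1 : ℤ)) - (b - b') := by ring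
    rw [e]
    exact dvd_sub ((dvd_mul_of_dvd_left ha _).neg_right) hb
  constructor
  · intro h1
    have := dvd_sub h1 h
    rwa [sub_sub_cancel] at this
  · intro h1
    have := dvd_add h h1
    rwa [sub_add_cancel] at this

lemma traceIn_congr {p : ℕ} {a b a' b' : ℤ} (ha : (p : ℤ) ∣ a - a') (hb : (p : ℤ) ∣ b - b') (s s' : ℤ) :
    TraceIn p a b s s' ↔ TraceIn p a' b' s s' := by
  unfold TraceIn
  rw [points_congr ha hb]
  have h : (p : ℤ) ∣ 2 * (4 * a ^ 3 + 27 * b ^ 2) - 2 * (4 * a' ^ 3 + 27 * b' ^ 2) := by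
    have e : 2 * (4 * a ^ 3 + 27 * b ^ 2) - 2 * (4 * a' ^ 3 + 27 * b' ^ 2) =
      (a - a') * (8 * (a ^ 2 + a * a' + a' ^ 2)) + (b - b') * (54 * (b + b')) := by ring
    rw [e]
    exact dvd_add (dvd_mul_of_dvd_left ha _) (dvd_mul_of_dvd_left hb _)
  have h2 : (p : ℤ) ∣ 2 * (4 * a ^ 3 + 27 * b ^ 2) ↔ (p : ℤ) ∣ 2 * (4 * a' ^ 3 + 27 * b' ^ 2) := by
    constructor
    · intro h1
      have := dvd_sub h1 h
      rwa [sub_sub_cancel] at this
    · intro h1
      have := dvd_add h h1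
      rwa [sub_add_cancel] at this
  rw [h2]

lemma eval_congr {n p : ℕ} (P : MvPolynomial (Fin n) ℤ) {t t' : Fin n → ℤ} (h : ∀ i, (p : ℤ) ∣ t i - t' i) :
    (p : ℤ) ∣ eval t P - eval t' P := by
  induction P using MvPolynomial.induction_on with
  | C a => simp
  | add P Q hP hQ =>
      rw [map_add, map_add]
      have e : eval t P + eval t Q - (eval t' P + eval t' Q) = (eval t P - eval t' P) + (eval t Q - eval t' Q) := by ring
      rw [e]
      exact dvd_add hP hQ
  | mul_X P i hP =>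
      rw [map_mul, map_mul, eval_X, eval_X]
      have e : eval t P * t i - eval t' P * t' i = (eval t P - eval t' P) * t i + eval t' P * (t i - t' i) := by ring
      rw [e]
      exact dvd_add (dvd_mul_of_dvd_left hP _) (dvd_mul_of_dvd_right (h i) _)

lemma traces_congr {n k : ℕ} (A B : Fin k → MvPolynomial (Fin n) ℤ) (s s' : Fin k → ℤ) {p : ℕ} {t t' : Fin n → ℤ}
    (h : ∀ i, (p : ℤ) ∣ t i - t' i) : Traces A B s s' p t ↔ Traces A B s s' p t' := by
  unfold Traces
  exact forall_congr' fun i => traceIn_congr (eval_congr (A i) h) (eval_congr (B i) h) (s i) (s' i)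

open Classical in
/-- translation of the residues -/
lemma shift_count {n : ℕ} (p N : ℕ) (hp : 1 ≤ p) (G : (Fin n → ℤ) → Prop)
    (hG : ∀ t t' : Fin n → ℤ, (∀ i, (p : ℤ) ∣ t i - t' i) → (G t ↔ G t')) :
    ((box n p).filter (fun w => G (fun i => (w i : ℤ) - N))).card =
      ((Fintype.piFinset (fun _ : Fin n => range p)).filter (fun w => G (fun i => (w i : ℤ)))).card := by
  have hp0 : (0 : ℤ) < p := by exact_mod_cast hp
  refine card_nbij' (fun w => fun i => (((w i : ℤ) - N) % p).toNat) (fun w => fun i => (w i + N) % p) ?_ ?_ ?_ ?_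
  · intro w hw
    have hw' := (mem_filter.1 (mem_coe.1 hw))
    apply mem_coe.2
    rw [mem_filter, Fintype.mem_piFinset]
    have hnn : ∀ i, 0 ≤ ((w i : ℤ) - N) % p := fun i => Int.emod_nonneg _ hp0.ne'
    refine ⟨fun i => ?_, ?_⟩
    · rw [mem_range]
      show (((w i : ℤ) - N) % p).toNat < p
      have h1 := Int.emod_lt_of_pos ((w i : ℤ) - N) hp0
      have h2 : ((((w i : ℤ) - N) % p).toNat : ℤ) = ((w i : ℤ) - N) % p := Int.toNat_of_nonneg (hnn i)
      omega
    · refine (hG _ _ fun i => ?_).1 hw'.2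
      show (p : ℤ) ∣ ((w i : ℤ) - N) - ((((w i : ℤ) - N) % p).toNat : ℤ)
      rw [Int.toNat_of_nonneg (hnn i)]
      exact Int.dvd_self_sub_emod
  · intro w hw
    have hw' := (mem_filter.1 (mem_coe.1 hw))
    apply mem_coe.2
    rw [mem_filter, mem_box]
    refine ⟨fun i => Nat.mod_lt _ hp, ?_⟩
    refine (hG _ _ fun i => ?_).1 hw'.2
    show (p : ℤ) ∣ (w i : ℤ) - ((((w i + N) % p : ℕ) : ℤ) - N)
    have h1 : (((w i + N) % p : ℕ) : ℤ) = ((w i : ℤ) + N) % p := by push_cast; rfl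
    rw [h1]
    have h2 : (w i : ℤ) - (((w i : ℤ) + N) % p - N) = ((w i : ℤ) + N) - ((w i : ℤ) + N) % p := by ring
    rw [h2]
    exact Int.dvd_self_sub_emod
  · intro w hw
    have hw' := mem_box.1 (mem_filter.1 (mem_coe.1 hw)).1
    funext i
    have hnn : 0 ≤ ((w i : ℤ) - N) % p := Int.emod_nonneg _ hp0.ne'
    have h3 : (((((((w i : ℤ) - N) % p).toNat + N) % p : ℕ)) : ℤ) = (w i : ℤ) := by
      push_cast
      rw [Int.toNat_of_nonneg hnn, Int.emod_add_emod, sub_add_cancel]
      exact Int.emod_eq_of_lt (by positivity) (by exact_mod_cast hw' i)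
    exact_mod_cast h3
  · intro w hw
    have hw' := (Fintype.mem_piFinset.1 (mem_filter.1 (mem_coe.1 hw)).1)
    funext i
    have hwi := mem_range.1 (hw' i)
    show (((((w i + N) % p : ℕ) : ℤ) - N) % p).toNat = w i
    have h1 : (((w i + N) % p : ℕ) : ℤ) = ((w i : ℤ) + N) % p := by push_cast; rfl
    rw [h1, Int.emod_sub_emod, add_sub_cancel_right, Int.emod_eq_of_lt (by positivity) (by exact_mod_cast hwi)]
    exact Int.toNat_natCast _

/-- truncation of the windows -/
def cl (X s : ℤ) : ℤ := max (-X - 1) (min (X + 1) s)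

lemma cl_mem (X s : ℤ) (hX : 0 ≤ X) : cl X s ∈ Icc (-X - 1) (X + 1) := by
  unfold cl
  rw [mem_Icc]
  constructor
  · exact le_max_left _ _
  · exact max_le (by linarith) (min_le_left _ _)

lemma cl_le {X s z : ℤ} (h1 : -X ≤ z) (h2 : z ≤ X) : cl X s ≤ z ↔ s ≤ z := by
  unfold cl
  rw [max_le_iff, min_le_iff]
  constructor
  · rintro ⟨_, h | h⟩
    · linarith
    · exact h
  · intro h
    exact ⟨by linarith, Or.inr h⟩

lemma le_cl {X s z : ℤ} (h1 : -X ≤ z) (h2 : z ≤ X) : z ≤ cl X s ↔ z ≤ s := by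
  unfold cl
  rw [le_max_iff, le_min_iff]
  constructor
  · rintro (h | h)
    · linarith
    · exact h.2
  · intro h
    exact Or.inr ⟨by linarith, h⟩

lemma traceIn_cl {p x : ℕ} (hp : 1 ≤ p) (hpx : p ≤ x) (a b s s' : ℤ) :
    TraceIn p a b (cl ((x : ℤ) ^ 2) s) (cl ((x : ℤ) ^ 2) s') ↔ TraceIn p a b s s' := by
  unfold TraceIn
  have h1 : (points p a b : ℤ) ≤ p * p := by exact_mod_cast points_le p a b
  have h2 : (0 : ℤ) ≤ points p a b := by positivity
  have h3 : (1 : ℤ) ≤ p := by exact_mod_cast hp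
  have h4 : (p : ℤ) ≤ x := by exact_mod_cast hpx
  have h5 : -(x : ℤ) ^ 2 ≤ (p : ℤ) - points p a b := by nlinarith
  have h6 : (p : ℤ) - points p a b ≤ (x : ℤ) ^ 2 := by nlinarith
  rw [cl_le h5 h6, le_cl h5 h6]

lemma traces_cl {n k : ℕ} (A B : Fin k → MvPolynomial (Fin n) ℤ) (s s' : Fin k → ℤ) {p x : ℕ} (hp : 1 ≤ p) (hpx : p ≤ x)
    (t : Fin n → ℤ) : Traces A B (fun i => cl ((x : ℤ) ^ 2) (s i)) (fun i => cl ((x : ℤ) ^ 2) (s' i)) p t ↔
      Traces A B s s' p t := by
  unfold Traces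
  exact forall_congr' fun i => traceIn_cl hp hpx _ _ _ _

/-- The index set of the conditions at the scale `x`. -/
noncomputable def idx (k x : ℕ) : Finset ((Fin k → ℤ) × (Fin k → ℤ) × ℕ × ℕ × ℕ × ℕ) :=
  if x = 0 then ∅ else
    (Fintype.piFinset fun _ => Icc (-(x : ℤ) ^ 2 - 1) ((x : ℤ) ^ 2 + 1)) ×ˢ
    (Fintype.piFinset fun _ => Icc (-(x : ℤ) ^ 2 - 1) ((x : ℤ) ^ 2 + 1)) ×ˢ
    range (x + 1) ×ˢ range (x + 1) ×ˢ range (x + 1) ×ˢ range (x + 1)

lemma card_idx (k x : ℕ) : ((idx k x).card : ℝ) ≤ ((x : ℝ) + 1) ^ ((6 * k + 4 : ℕ) : ℝ) := by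
  unfold idx
  split_ifs with hx
  · rw [card_empty, Nat.cast_zero]
    positivity
  · have hc : (Icc (-(x : ℤ) ^ 2 - 1) ((x : ℤ) ^ 2 + 1)).card = 2 * x ^ 2 + 3 := by
      rw [Int.card_Icc]
      have : (x : ℤ) ^ 2 + 1 + 1 - (-(x : ℤ) ^ 2 - 1) = ((2 * x ^ 2 + 3 : ℕ) : ℤ) := by push_cast; ring
      rw [this]
      exact Int.toNat_natCast _
    rw [card_product, card_product, card_product, card_product, card_product, Fintype.card_piFinset, prod_const,
      card_univ, Fintype.card_fin, hc, card_range, Real.rpow_natCast]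
    have h1 : 2 * x ^ 2 + 3 ≤ (x + 1) ^ 3 := by
      have hx1 : 1 ≤ x := by omega
      nlinarith [Nat.pow_le_pow_left hx1 2, Nat.pow_le_pow_left hx1 3]
    have h2 : (2 * x ^ 2 + 3) ^ k * ((2 * x ^ 2 + 3) ^ k * ((x + 1) * ((x + 1) * ((x + 1) * (x + 1))))) ≤
        (x + 1) ^ (6 * k + 4) := by
      have h3 : (2 * x ^ 2 + 3) ^ k ≤ ((x + 1) ^ 3) ^ k := Nat.pow_le_pow_left h1 k
      calc (2 * x ^ 2 + 3) ^ k * ((2 * x ^ 2 + 3) ^ k * ((x + 1) * ((x + 1) * ((x + 1) * (x + 1)))))
          ≤ ((x + 1) ^ 3) ^ k * (((x + 1) ^ 3) ^ k * ((x + 1) * ((x + 1) * ((x + 1) * (x + 1))))) :=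
            Nat.mul_le_mul h3 (Nat.mul_le_mul_right _ h3)
        _ = (x + 1) ^ (6 * k + 4) := by
            rw [← pow_mul]
            ring
    exact_mod_cast h2

open Classical in
/-- **Main theorem.** For all `n`, `k` and `δ > 0` there are `c > 0`, `C` and `N₀` such that for all families
`y² = x³ + A_i(t) x + B_i(t)`, `i < k`, with polynomials `A_i`, `B_i ∈ ℤ[t_1, …, t_n]` and all `N ≥ N₀` the
following holds for all `t ∈ [-N, N]^n` with at most `N ^ (n - c)` exceptions: for all integers `x` with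
`(log N) ^ C ≤ x ≤ N ^ c`, all `u ≤ v ≤ x`, `r < m ≤ x` and all windows `[s i, s' i]` of traces (for example
`s i = s' i`: prescribed traces) the number of the primes `p ∈ (u, v]`, `p ≡ r (mod m)`, at which the curves
have good reduction and traces in the windows differs from its expected value `V` by at most
`(max 1 V) ^ (1 / 2) x ^ δ`. -/
theorem result (n k : ℕ) (δ : ℝ) (hδ : 0 < δ) : ∃ c C : ℝ, 0 < c ∧ ∃ N₀ : ℕ,
    ∀ A B : Fin k → MvPolynomial (Fin n) ℤ, ∀ N : ℕ, N₀ ≤ N →
      (((params n N).filter (fun t => ¬ ∀ x : ℕ, Real.log N ^ C ≤ (x : ℝ) → (x : ℝ) ≤ (N : ℝ) ^ c →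
        Good A B δ x t)).card : ℝ) ≤ (N : ℝ) ^ ((n : ℝ) - c) := by
  obtain ⟨c, C, hc, N₁, h⟩ := Pool.Agent.Y671.LW.box_law n δ ((6 * k + 4 : ℕ) : ℝ) hδ (by positivity)
  -- enlarge the constants
  obtain ⟨K, hK⟩ : ∃ K : ℝ, K = (3 : ℝ) ^ (n : ℝ) := ⟨_, rfl⟩
  obtain ⟨N₂, hN₂⟩ := exists_nat_ge (max (Real.exp 3) (K ^ (2 / c)))
  refine ⟨c / 2, 2 * max C 0, by positivity, max N₁ N₂, fun A B N hN => ?_⟩
  have hNN₁ : N₁ ≤ 2 * N + 1 := by have := (le_max_left N₁ N₂).trans hN; omega
  have hNr : max (Real.exp 3) (K ^ (2 / c)) ≤ N := hN₂.trans (by exact_mod_cast (le_max_right N₁ N₂).trans hN)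
  have hNe : Real.exp 3 ≤ N := (le_max_left _ _).trans hNr
  have hNK : K ^ (2 / c) ≤ N := (le_max_right _ _).trans hNr
  have hN0 : (0 : ℝ) < N := (Real.exp_pos 3).trans_le hNe
  have hN3 : (3 : ℝ) ≤ N := by
    have := Real.add_one_le_exp (3 : ℝ)
    linarith
  have hK0 : 0 ≤ K := by rw [hK]; positivity
  have hKN : K ≤ (N : ℝ) ^ (c / 2) := by
    have h1 := Real.rpow_le_rpow (Real.rpow_nonneg hK0 _) hNK (by positivity : 0 ≤ c / 2)
    rw [← Real.rpow_mul hK0, show 2 / c * (c / 2) = 1 by field_simp, Real.rpow_one] at h1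
    exact h1
  have hlog3 : 3 ≤ Real.log N := by rw [Real.le_log_iff_exp_le hN0]; exact hNe
  have hcast : (((2 * N + 1 : ℕ) : ℝ)) = 2 * N + 1 := by push_cast; ring
  have hlogN' : Real.log ((2 * N + 1 : ℕ) : ℝ) ≤ Real.log N ^ (2 : ℝ) := by
    have h1 : Real.log ((2 * N + 1 : ℕ) : ℝ) ≤ Real.log (N ^ 2 : ℝ) := by
      apply Real.log_le_log (by positivity)
      rw [hcast]
      nlinarith
    rw [Real.log_pow] at h1
    push_cast at h1
    have h2 : Real.log N ^ (2 : ℝ) = Real.log N * Real.log N := by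
      rw [show (2 : ℝ) = ((2 : ℕ) : ℝ) by norm_num, Real.rpow_natCast]
      ring
    rw [h2]
    push_cast
    nlinarith
  have hlog1 : 1 ≤ Real.log ((2 * N + 1 : ℕ) : ℝ) := by
    have : Real.log N ≤ Real.log ((2 * N + 1 : ℕ) : ℝ) := by
      apply Real.log_le_log hN0
      rw [hcast]
      linarith
    linarith
  -- the exceptional set
  obtain ⟨E, hE⟩ : ∃ E, E = (params n N).filter (fun t => ¬ ∀ x : ℕ, Real.log N ^ (2 * max C 0) ≤ (x : ℝ) →
      (x : ℝ) ≤ (N : ℝ) ^ (c / 2) → Good A B δ x t) := ⟨_, rfl⟩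
  rw [← hE]
  obtain ⟨f, hf⟩ : ∃ f : (Fin n → ℤ) → (Fin n → ℕ), f = fun t i => (t i + (N : ℤ)).toNat := ⟨_, rfl⟩
  have hpar : ∀ t ∈ E, ∀ i, -(N : ℤ) ≤ t i ∧ t i ≤ N := by
    intro t ht i
    rw [hE, mem_filter, params, Fintype.mem_piFinset] at ht
    exact mem_Icc.1 (ht.1 i)
  have hfv : ∀ t ∈ E, ∀ i, ((f t i : ℕ) : ℤ) = t i + N := by
    intro t ht i
    rw [hf]
    exact Int.toNat_of_nonneg (by linarith [(hpar t ht i).1])
  have hinj : Set.InjOn f (E : Set (Fin n → ℤ)) := by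
    intro t ht t' ht' htt
    funext i
    have h1 := hfv t ht i
    have h2 := hfv t' ht' i
    rw [htt] at h1
    linarith
  have hcard : E.card = (E.image f).card := (card_image_of_injOn hinj).symm
  have hsub : E.image f ⊆ box n (2 * N + 1) := by
    intro w hw
    obtain ⟨t, ht, rfl⟩ := mem_image.1 hw
    rw [mem_box]
    intro i
    have h1 := hfv t ht i
    have h2 := (hpar t ht i).2
    zify
    linarith
  obtain ⟨T, hT⟩ : ∃ T : ((Fin k → ℤ) × (Fin k → ℤ) × ℕ × ℕ × ℕ × ℕ) → ℕ → (Fin n → ℕ) → Prop,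
      T = fun l p w => Traces A B l.1 l.2.1 p (fun i => (w i : ℤ) - N) := ⟨_, rfl⟩
  have hPr : ∀ l p, 1 ≤ p → Pr n p (T l p) = (((Fintype.piFinset (fun _ : Fin n => range p)).filter
      (fun w => Traces A B l.1 l.2.1 p (fun i => (w i : ℤ)))).card : ℝ) / (p : ℝ) ^ n := by
    intro l p hp
    unfold Pr
    rw [hT]
    have := shift_count p N hp (fun t => Traces A B l.1 l.2.1 p t) (fun t t' htt => traces_congr A B _ _ htt)
    congr 2
  have key : (((E.image f).card : ℕ) : ℝ) ≤ ((2 * N + 1 : ℕ) : ℝ) ^ ((n : ℝ) - c) := by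
    refine h (2 * N + 1) hNN₁ _ (idx k) (card_idx k)
      (fun x l => (primes l.2.2.1 l.2.2.2.1 l.2.2.2.2.1 l.2.2.2.2.2).filter (fun p => p ≤ x)) ?_ T ?_ (E.image f) hsub ?_
    · intro x l p hp
      rw [mem_filter, primes, mem_filter] at hp
      exact ⟨hp.1.2.1, hp.2⟩
    · intro x l _ p hp w
      rw [hT]
      apply traces_congr
      intro i
      show (p : ℤ) ∣ ((w i : ℤ) - N) - (((w i % p : ℕ) : ℤ) - N)
      have h1 : ((w i % p : ℕ) : ℤ) = (w i : ℤ) % p := by push_cast; rfl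
      rw [h1, sub_sub_sub_cancel_right]
      exact Int.dvd_self_sub_emod
    · intro w hw
      obtain ⟨t, ht, rfl⟩ := mem_image.1 hw
      have htE := ht
      rw [hE, mem_filter] at htE
      obtain ⟨-, hbad⟩ := htE
      push Not at hbad
      obtain ⟨x, hx1, hx2, hx3⟩ := hbad
      unfold Good at hx3
      push Not at hx3
      obtain ⟨s, s', u, v, m, r, huv, hvx, hrm, hmx, hlt⟩ := hx3
      have hx0 : x ≠ 0 := by omega
      have hfw : ∀ p, Traces A B s s' p t ↔ T (s, s', u, v, m, r) p (f t) := by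
        intro p
        rw [hT]
        have : (fun i => ((f t i : ℕ) : ℤ) - N) = t := by
          funext i
          rw [hfv t ht i]
          ring
        show _ ↔ Traces A B s s' p (fun i => ((f t i : ℕ) : ℤ) - N)
        rw [this]
      refine ⟨x, ?_, ?_, (fun i => cl ((x : ℤ) ^ 2) (s i), fun i => cl ((x : ℤ) ^ 2) (s' i), u, v, m, r), ?_, ?_⟩
      · refine le_trans ?_ hx1
        calc Real.log ((2 * N + 1 : ℕ) : ℝ) ^ C ≤ Real.log ((2 * N + 1 : ℕ) : ℝ) ^ (max C 0) :=
              Real.rpow_le_rpow_of_exponent_le hlog1 (le_max_left _ _)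
          _ ≤ (Real.log N ^ (2 : ℝ)) ^ (max C 0) := Real.rpow_le_rpow (by linarith) hlogN' (le_max_right _ _)
          _ = Real.log N ^ (2 * max C 0) := by rw [← Real.rpow_mul (by linarith)]
      · refine hx2.trans ?_
        calc (N : ℝ) ^ (c / 2) ≤ (N : ℝ) ^ c := Real.rpow_le_rpow_of_exponent_le (by linarith) (by linarith)
          _ ≤ ((2 * N + 1 : ℕ) : ℝ) ^ c := by
              apply Real.rpow_le_rpow hN0.le _ hc.le
              rw [hcast]
              linarith
      · unfold idx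
        rw [if_neg hx0]
        simp only [mem_product, Fintype.mem_piFinset, mem_range]
        have hX : (0 : ℤ) ≤ (x : ℤ) ^ 2 := by positivity
        exact ⟨fun i => cl_mem _ _ hX, fun i => cl_mem _ _ hX, by omega, by omega, by omega, by omega⟩
      · have hset : (primes u v m r).filter (fun p => p ≤ x) = primes u v m r := by
          apply filter_true_of_mem
          intro p hp
          rw [primes, mem_filter, mem_Ioc] at hp
          omega
        have hp1 : ∀ p ∈ primes u v m r, 1 ≤ p ∧ p ≤ x := by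
          intro p hp
          rw [primes, mem_filter, mem_Ioc] at hp
          omega
        have hexp : ∑ p ∈ (primes u v m r).filter (fun p => p ≤ x),
            Pr n p (T (fun i => cl ((x : ℤ) ^ 2) (s i), fun i => cl ((x : ℤ) ^ 2) (s' i), u, v, m, r) p) =
            expected A B s s' u v m r := by
          rw [hset]
          unfold expected
          refine sum_congr rfl fun p hp => ?_
          rw [hPr _ p (hp1 p hp).1]
          congr 2
          congr 1
          apply filter_congr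
          intro w _
          exact traces_cl A B s s' (hp1 p hp).1 (hp1 p hp).2 _
        have hcnt : (((primes u v m r).filter (fun p => p ≤ x)).filter
            (fun p => T (fun i => cl ((x : ℤ) ^ 2) (s i), fun i => cl ((x : ℤ) ^ 2) (s' i), u, v, m, r) p (f t))).card =
            count A B s s' u v m r t := by
          rw [hset]
          unfold count
          congr 1
          apply filter_congr
          intro p hp
          rw [hfw p]
          rw [hT]
          exact traces_cl A B s s' (hp1 p hp).1 (hp1 p hp).2 _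
        show Real.sqrt (max 1 (∑ p ∈ (primes u v m r).filter (fun p => p ≤ x),
            Pr n p (T (fun i => cl ((x : ℤ) ^ 2) (s i), fun i => cl ((x : ℤ) ^ 2) (s' i), u, v, m, r) p))) * (x : ℝ) ^ δ <
          |((((primes u v m r).filter (fun p => p ≤ x)).filter
            (fun p => T (fun i => cl ((x : ℤ) ^ 2) (s i), fun i => cl ((x : ℤ) ^ 2) (s' i), u, v, m, r) p (f t))).card : ℝ) -
            ∑ p ∈ (primes u v m r).filter (fun p => p ≤ x),
            Pr n p (T (fun i => cl ((x : ℤ) ^ 2) (s i), fun i => cl ((x : ℤ) ^ 2) (s' i), u, v, m, r) p)|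
        rw [hexp, hcnt]
        exact hlt
  rw [hcard]
  refine key.trans ?_
  have h2N : ((2 * N + 1 : ℕ) : ℝ) ≤ 3 * N := by
    rw [hcast]
    linarith
  have h2N0 : (0 : ℝ) < ((2 * N + 1 : ℕ) : ℝ) := by positivity
  calc ((2 * N + 1 : ℕ) : ℝ) ^ ((n : ℝ) - c) = ((2 * N + 1 : ℕ) : ℝ) ^ (n : ℝ) / ((2 * N + 1 : ℕ) : ℝ) ^ c := Real.rpow_sub h2N0 _ _
    _ ≤ (3 * (N : ℝ)) ^ (n : ℝ) / (N : ℝ) ^ c := by
        apply div_le_div₀ (by positivity)
        · exact Real.rpow_le_rpow h2N0.le h2N (by positivity)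
        · positivity
        · apply Real.rpow_le_rpow hN0.le _ hc.le
          rw [hcast]
          linarith
    _ = K * (N : ℝ) ^ ((n : ℝ) - c) := by
        rw [Real.mul_rpow (by norm_num) hN0.le, ← hK, mul_div_assoc, ← Real.rpow_sub hN0]
    _ ≤ (N : ℝ) ^ (c / 2) * (N : ℝ) ^ ((n : ℝ) - c) := mul_le_mul_of_nonneg_right hKN (by positivity)
    _ = (N : ℝ) ^ ((n : ℝ) - c / 2) := by
        rw [← Real.rpow_add hN0]
        congr 1
        ring

end Pool.Agent.Results.MP_f1937f_nt.PolynomialFamilies
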